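import Pool.Agent.Helper3_PPZ.Stmts
import Pool.Agent.Helper75_PPX.Loc

/-!
Squad PPZ, module VAL: the values at a good place.
-/

set_option autoImplicit false

universe u

namespace Pool.Agent.PPZ.H43

open MvPolynomial PGH PPX

section cg

variable {L E : Type u} [Field L] [Field E] [Algebra L E] {P : Place L E}

/-- congruence modulo the place -/
def Cg (P : Place L E) (y : E) (c : L) : Prop := P.Ge 1 (y - algebraMap L E c)

theorem Cg.ge {y : E} {c : L} (h : Cg P y c) : P.Ge 0 y := P.ge_zero_of_res h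

theorem Cg.add {y y' : E} {c c' : L} (h : Cg P y c) (h' : Cg P y' c') : Cg P (y + y') (c + c') := by
  unfold Cg at *
  rw [map_add, add_sub_add_comm]
  exact Place.Ge.add h h'

theorem Cg.mul {y y' : E} {c c' : L} (h : Cg P y c) (h' : Cg P y' c') : Cg P (y * y') (c * c') := by
  have h0 := h.ge
  unfold Cg at *
  have e : y * y' - algebraMap L E (c * c') =
      y * (y' - algebraMap L E c') + (y - algebraMap L E c) * algebraMap L E c' := by
    rw [map_mul]; ring
  rw [e]
  exact Place.Ge.add (h0.mul' h' (by norm_num)) (Place.Ge.mul' h (P.ge_const c') (by norm_num))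

theorem Cg.const (c : L) : Cg P (algebraMap L E c) c := by
  unfold Cg
  rw [sub_self]
  exact P.ge_zero 1

theorem Cg.one : Cg P (1 : E) (1 : L) := by
  have := Cg.const (P := P) (1 : L)
  rwa [map_one] at this

theorem Cg.pow {y : E} {c : L} (h : Cg P y c) (n : ℕ) : Cg P (y ^ n) (c ^ n) := by
  induction n with
  | zero => rw [pow_zero, pow_zero]; exact Cg.one
  | succ n ih => rw [pow_succ, pow_succ]; exact ih.mul h

theorem Cg.prod {ι : Type*} (s : Finset ι) {y : ι → E} {c : ι → L} (h : ∀ i ∈ s, Cg P (y i) (c i)) :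
    Cg P (∏ i ∈ s, y i) (∏ i ∈ s, c i) := by
  classical
  induction s using Finset.induction_on with
  | empty => rw [Finset.prod_empty, Finset.prod_empty]; exact Cg.one
  | insert a s ha ih =>
    rw [Finset.prod_insert ha, Finset.prod_insert ha]
    exact (h a (Finset.mem_insert_self _ _)).mul
      (ih fun i hi => h i (Finset.mem_insert_of_mem hi))

theorem Cg.unit {y : E} {c : L} (h : Cg P y c) (hc : c ≠ 0) : y ≠ 0 ∧ P.ord y = 0 := by
  refine H75.ord_of_unit P h.ge fun h1 => ?_
  have h2 := h1.sub h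
  rw [sub_sub_cancel] at h2
  exact P.not_ge_one_const hc h2

theorem Cg.inv {y : E} {c : L} (h : Cg P y c) (hc : c ≠ 0) : Cg P y⁻¹ c⁻¹ := by
  obtain ⟨h0, h1⟩ := h.unit hc
  have hce : algebraMap L E c ≠ 0 := (map_ne_zero _).mpr hc
  have e : y⁻¹ - algebraMap L E c⁻¹ = -(y - algebraMap L E c) * (y⁻¹ * algebraMap L E c⁻¹) := by
    rw [map_inv₀]
    field_simp
    ring
  unfold Cg
  rw [e]
  exact (Place.Ge.neg h).mul' ((H75.ge_inv P h1).mul' (P.ge_const _) le_rfl) (by norm_num)

theorem Cg.eval {σ : Type*} {e : σ → E} {p : σ → L} (h : ∀ v, Cg P (e v) (p v))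
    (Q : MvPolynomial σ L) : Cg P (aeval e Q) (MvPolynomial.eval p Q) := by
  induction Q using MvPolynomial.induction_on with
  | C a => rw [aeval_C, eval_C]; exact Cg.const a
  | add p q hp hq => rw [map_add, map_add]; exact hp.add hq
  | mul_X p v hp => rw [map_mul, map_mul, aeval_X, eval_X]; exact hp.mul (h v)

theorem ge_prod {ι : Type*} (s : Finset ι) {y : ι → E} {m : ι → ℕ}
    (h : ∀ i ∈ s, P.Ge (m i : ℤ) (y i)) : P.Ge ((∑ i ∈ s, m i : ℕ) : ℤ) (∏ i ∈ s, y i) := by
  classical
  induction s using Finset.induction_on with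
  | empty => rw [Finset.prod_empty, Finset.sum_empty]; exact P.ge_one
  | insert a s ha ih =>
    rw [Finset.prod_insert ha, Finset.sum_insert ha, Nat.cast_add]
    exact (h a (Finset.mem_insert_self _ _)).mul'
      (ih fun i hi => h i (Finset.mem_insert_of_mem hi)) le_rfl

theorem ge_jet {n : ℕ} {e : Fin n → E} {r : ℕ} (h : ∀ v, P.Ge 1 (e v)) (R : MvPolynomial (Fin n) L)
    (hR : ∀ s : Fin n →₀ ℕ, s.degree < r → coeff s R = 0) : P.Ge r (aeval e R) := by
  rw [aeval_def, eval₂_eq']
  refine Place.Ge.sum fun s hs => ?_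
  have h1 : r ≤ s.degree := by
    by_contra hlt
    exact (mem_support_iff.1 hs) (hR s (not_le.1 hlt))
  have h2 : P.Ge ((∑ v, s v : ℕ) : ℤ) (∏ v, e v ^ s v) := by
    refine ge_prod _ fun v _ => ?_
    have := (h v).pow (s v)
    rwa [mul_one] at this
  refine (P.ge_const _).mul' h2 ?_
  rw [zero_add]
  have h3 : s.degree = ∑ v, s v := Finsupp.degree_eq_sum s
  rw [← h3]
  exact_mod_cast h1

end cg

theorem ln_eval {k : Type*} [Field k] {N₁ N₂ : ℕ} (a : Fin N₁ → k) (b : Fin N₂ → k) (i : Fin N₁)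
    (j : Fin N₂) (τ : k) (Q : P4 k) : (ln a b i j Q).eval τ = MvPolynomial.eval (pnt a b i j τ) Q := by
  unfold ln lin
  induction Q using MvPolynomial.induction_on with
  | C c => rw [aeval_C, eval_C]; simp
  | add p q hp hq => rw [map_add, map_add, Polynomial.eval_add, hp, hq]
  | mul_X p v hp =>
    rw [map_mul, map_mul, Polynomial.eval_mul, hp, aeval_X, eval_X]
    congr 1
    fin_cases v <;> simp [pnt]

theorem tay_eval {k E : Type*} [Field k] [Field E] [Algebra k E] (p : Fin 4 → k) (e : Fin 4 → E)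
    (Q : P4 k) : aeval (fun v => e v - algebraMap k E (p v)) (tay p Q) = aeval e Q := by
  unfold tay
  induction Q using MvPolynomial.induction_on with
  | C c => rw [aeval_C, aeval_C]; exact (aeval _).commutes c
  | add p q hp hq => rw [map_add, map_add, map_add, hp, hq]
  | mul_X p v hp =>
    rw [map_mul, map_mul, map_mul, hp, aeval_X, aeval_X, map_add, aeval_X, aeval_C]
    congr 1
    ring

/-- VAL -/
theorem val : ValStmt.{u} := by
  classical
  intro k _ _ _ N₁ N₂ a b ha hb C i j P hN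
  have hD : ∀ c : k, C.D (algebraMap k C.E c) = 0 := fun c => (C.ker _).2 ⟨c, rfl⟩
  obtain ⟨l1, l2, l3⟩ := H75.loc P C.D a b C.x C.z i j ha hb (fun _ => hD _) (fun _ => hD _) hN
  obtain ⟨-, hx, hz⟩ := hN
  have hz0 : C.z - algebraMap k C.E (b j) ≠ 0 := by
    intro h
    rw [h, P.ord_zero] at hz
    exact absurd hz (by norm_num)
  have hx0 : C.x - algebraMap k C.E (a i) ≠ 0 := by
    intro h
    rw [h, P.ord_zero] at hx
    exact absurd hx (by norm_num)
  have hz1 : Cg P C.z (b j) := (P.ge_iff hz0).mpr hz.ge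
  have hx1 : Cg P C.x (a i) := (P.ge_iff hx0).mpr hx.ge
  obtain ⟨η, hη⟩ : ∃ η, η = (C.x - algebraMap k C.E (a i)) / (C.z - algebraMap k C.E (b j)) :=
    ⟨_, rfl⟩
  have hη0 : η ≠ 0 := by rw [hη]; exact div_ne_zero hx0 hz0
  have hηord : P.ord η = 0 := by rw [hη, P.ord_div hx0 hz0, hx, hz]; norm_num
  have hηge : P.Ge 0 η := (P.ge_iff hη0).mpr hηord.ge
  have hηn : ¬ P.Ge 1 η := by
    rw [P.ge_iff hη0, hηord]
    norm_num
  rw [← hη] at l1
  change P.Ge 1 (C.th - η) at l1
  change P.Ge 1 (C.la - (algebraMap k C.E (slope b j) - algebraMap k C.E (slope a i) * C.th)) at l3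
  have hθge : P.Ge 0 C.th := by
    have := (l1.mono (by norm_num : (0 : ℤ) ≤ 1)).add hηge
    rwa [sub_add_cancel] at this
  obtain ⟨τ, hτ⟩ : ∃ τ, Cg P C.th τ := P.exists_res hθge
  have hτ0 : τ ≠ 0 := by
    rintro rfl
    unfold Cg at hτ
    rw [map_zero, sub_zero] at hτ
    have := hτ.sub l1
    rw [sub_sub_cancel] at this
    exact hηn this
  have hla : Cg P C.la (slope b j - slope a i * τ) := by
    have h1 : Cg P (algebraMap k C.E (slope a i) * C.th) (slope a i * τ) :=
      (Cg.const _).mul hτ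
    unfold Cg at h1 ⊢
    have e : C.la - algebraMap k C.E (slope b j - slope a i * τ) =
        (C.la - (algebraMap k C.E (slope b j) - algebraMap k C.E (slope a i) * C.th)) -
        (algebraMap k C.E (slope a i) * C.th - algebraMap k C.E (slope a i * τ)) := by
      rw [map_sub]; ring
    rw [e]
    exact l3.sub h1
  have hpt : ∀ v, Cg P (C.pt v) (pnt a b i j τ v) := by
    intro v
    fin_cases v
    · exact hx1
    · exact hz1
    · exact hτ
    · exact hla
  refine ⟨τ, hτ0, hpt, ?_, ?_, ?_⟩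
  · intro Q hQ
    have h1 := Cg.eval hpt Q
    rw [← ln_eval, hQ] at h1
    unfold Cg at h1
    rwa [map_zero, sub_zero] at h1
  · intro r Q hQ
    have h1 := ge_jet (P := P) (e := fun v => C.pt v - algebraMap k C.E (pnt a b i j τ v)) hpt
      (tay (pnt a b i j τ) Q) hQ
    rw [tay_eval] at h1
    exact h1
  · have hG : Cg P (∏ l ∈ Finset.univ.erase j, (C.z - algebraMap k C.E (b l))) (dpr b j) := by
      refine Cg.prod _ fun l _ => ?_
      have h1 := hz1.add (Cg.const (P := P) (-b l))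
      rwa [map_neg, ← sub_eq_add_neg, ← sub_eq_add_neg] at h1
    have hF : Cg P (∏ l ∈ Finset.univ.erase i, (C.x - algebraMap k C.E (a l))) (dpr a i) := by
      refine Cg.prod _ fun l _ => ?_
      have h1 := hx1.add (Cg.const (P := P) (-a l))
      rwa [map_neg, ← sub_eq_add_neg, ← sub_eq_add_neg] at h1
    have hF0 : dpr a i ≠ 0 := by
      refine Finset.prod_ne_zero_iff.2 fun l hl => ?_
      rw [sub_ne_zero]
      exact fun h => Finset.ne_of_mem_erase hl (ha h).symm
    have hu : Cg P (C.th * η⁻¹) 1 := by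
      unfold Cg
      have e : C.th * η⁻¹ - algebraMap k C.E 1 = (C.th - η) * η⁻¹ := by
        rw [map_one, sub_mul, mul_inv_cancel₀ hη0]
      rw [e]
      exact l1.mul' (H75.ge_inv P hηord) (by norm_num)
    obtain ⟨G, hGd⟩ : ∃ G, G = ∏ l ∈ Finset.univ.erase j, (C.z - algebraMap k C.E (b l)) := ⟨_, rfl⟩
    obtain ⟨F, hFd⟩ : ∃ F, F = ∏ l ∈ Finset.univ.erase i, (C.x - algebraMap k C.E (a l)) := ⟨_, rfl⟩
    have hFne : F ≠ 0 := by rw [hFd]; exact (hF.unit hF0).1
    have hg : C.g = (C.z - algebraMap k C.E (b j)) * G := by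
      rw [hGd]; exact (Finset.mul_prod_erase _ _ (Finset.mem_univ j)).symm
    have hf : C.f = (C.x - algebraMap k C.E (a i)) * F := by
      rw [hFd]; exact (Finset.mul_prod_erase _ _ (Finset.mem_univ i)).symm
    rw [← hGd] at hG
    rw [← hFd] at hF
    have h1 : Cg P ((C.th * η⁻¹) * (G * F⁻¹)) (dpr b j / dpr a i) := by
      have := hu.mul (hG.mul (hF.inv hF0))
      rw [one_mul] at this
      rw [div_eq_mul_inv (dpr b j)]
      exact this
    have h2 := h1.pow 2
    have e : C.th * C.ph = ((C.th * η⁻¹) * (G * F⁻¹)) ^ 2 := by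
      unfold BC.ph
      rw [hg, hf, hη, inv_div]
      field_simp
    unfold Cg at h2
    rw [e]
    exact h2

end Pool.Agent.PPZ.H43
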