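import Pool.Agent.Helper3_PPZ.Stmts

/-!
Squad PPZ, module VAR: the variety of a family of curves with many prescribed values of `θ`.
-/

set_option autoImplicit false

universe u

namespace Pool.Agent.PPZ.H43

open MvPolynomial PGH PPX

/-- the arithmetic -/
theorem arith {q M₀ N₁ N₂ d₁ d₂ M n f h X Z W : ℕ} (hq : 0 < q)
    (hN₁ : 4 * (64 + 23 * M₀) + 32 ≤ N₁) (hN₂ : 4 * (64 + 23 * M₀) + 32 ≤ N₂)
    (hd : d₁ * N₂ + d₂ * N₁ ≤ 8 * (N₁ * N₂)) (hM : M ≤ M₀) (hh : 0 < h)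
    (hX : N₁ * X ≤ n + 8 * h) (hZ : N₂ * Z ≤ n + 8 * h)
    (hn : (4 * (64 + 23 * M₀) + 32) * h ≤ 4 * n) (hf : n < q * f)
    (hW : W ≤ d₁ * X + d₂ * Z + M * (4 * h + 19 * h)) (hlow : n + (9 * q - 1) * f ≤ W) : False := by
  have e1 : (N₁ * N₂) * (d₁ * X + d₂ * Z + M * (4 * h + 19 * h)) ≤
      (N₁ * N₂) * (8 * (n + 8 * h) + M₀ * (23 * h)) := by
    calc (N₁ * N₂) * (d₁ * X + d₂ * Z + M * (4 * h + 19 * h))
        = (d₁ * N₂) * (N₁ * X) + (d₂ * N₁) * (N₂ * Z) + (N₁ * N₂) * (M * (23 * h)) := by ring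
      _ ≤ (d₁ * N₂) * (n + 8 * h) + (d₂ * N₁) * (n + 8 * h) + (N₁ * N₂) * (M₀ * (23 * h)) :=
          Nat.add_le_add (Nat.add_le_add (Nat.mul_le_mul_left _ hX) (Nat.mul_le_mul_left _ hZ))
            (Nat.mul_le_mul_left _ (Nat.mul_le_mul_right _ hM))
      _ = (d₁ * N₂ + d₂ * N₁) * (n + 8 * h) + (N₁ * N₂) * (M₀ * (23 * h)) := by ring
      _ ≤ (8 * (N₁ * N₂)) * (n + 8 * h) + (N₁ * N₂) * (M₀ * (23 * h)) :=
          Nat.add_le_add_right (Nat.mul_le_mul_right _ hd) _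
      _ = (N₁ * N₂) * (8 * (n + 8 * h) + M₀ * (23 * h)) := by ring
  have hpos : 0 < N₁ * N₂ := Nat.mul_pos (by omega) (by omega)
  have e2 := Nat.le_of_mul_le_mul_left e1 hpos
  have e3 : n + (9 * q - 1) * f ≤ 8 * (n + 8 * h) + M₀ * (23 * h) := (hlow.trans hW).trans e2
  have e4 : 8 * (q * f) ≤ (9 * q - 1) * f := by
    have : 8 * q ≤ 9 * q - 1 := by omega
    calc 8 * (q * f) = (8 * q) * f := by ring
      _ ≤ _ := Nat.mul_le_mul_right _ this
  have e5 : M₀ * (23 * h) = 23 * (M₀ * h) := by ring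
  have e6 : (4 * (64 + 23 * M₀) + 32) * h = 288 * h + 92 * (M₀ * h) := by ring
  rw [e5] at e3
  rw [e6] at hn
  omega

/-- VAR -/
theorem var (hNod : NodStmt.{u}) (hZer : ZerStmt.{u}) (hCta : CtaStmt.{u}) (hVal : ValStmt.{u})
    (hDer : DerStmt.{u}) (hPri : PriStmt.{u}) : VarStmt.{u} := by
  classical
  intro q M₀ hq
  refine ⟨4 * (64 + 23 * M₀) + 32, ?_⟩
  intro k _ _ _ N₁ N₂ a b hN₁ hN₂ ha hb Θ T hT
  obtain ⟨p1, p2, p3⟩ := hPri a b T
  refine ⟨p1, p2, ?_, ?_, ?_⟩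
  · intro h2
    have h3 : ∀ᶠ i in (T.U : Filter T.ι), (T.C i).ev (X 2) = 0 := h2
    obtain ⟨i, hi⟩ := h3.exists
    have h4 := (hNod a b ha hb (T.C i)).2.2.2.2.2.2.2.2.2.2
    apply h4
    rw [← hi]
    unfold BC.ev
    rw [aeval_X]
    rfl
  · intro Q hQ hdeg
    have h3 : ∀ᶠ i in (T.U : Filter T.ι), (T.C i).ev Q = 0 := hQ
    change ∀ᶠ i in (T.U : Filter T.ι), (T.C i).ev (op a b Q) = 0
    filter_upwards [h3] with i hi
    have h5 := hDer a b (T.C i) Q hdeg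
    rw [hi, map_zero, mul_zero] at h5
    exact (mul_eq_zero.1 h5.symm).resolve_left (T.C i).dz
  · intro d₁ d₂ M hd hM Q hQ hln hjet
    change ∀ᶠ i in (T.U : Filter T.ι), (T.C i).ev Q = 0
    filter_upwards [hT] with ι hι
    obtain ⟨C, hC⟩ : ∃ C, C = T.C ι := ⟨_, rfl⟩
    rw [← hC] at hι ⊢
    obtain ⟨n1, n2, n3, n4, n5, n6, n7, -, -, -, -⟩ := hNod a b ha hb C
    by_contra hne
    have hfix : C.fixed Θ ⊆ C.nodes := by
      rintro P ⟨i, j, hN, -⟩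
      exact ⟨i, j, hN⟩
    have hge : ∀ P ∈ n1.toFinset, P.Ge ((if P ∈ C.fixed Θ then 9 * q else 1 : ℕ) : ℤ) (C.ev Q) := by
      intro P hP
      rw [Set.Finite.mem_toFinset] at hP
      obtain ⟨i, j, hN⟩ := hP
      by_cases hPf : P ∈ C.fixed Θ
      · rw [if_pos hPf]
        obtain ⟨i', j', hN', τ', hτ', hg⟩ := hPf
        obtain ⟨τ, -, v1, -, v3, -⟩ := hVal a b ha hb C i' j' P hN'
        have h1 : P.Ge 1 (C.th - algebraMap k C.E τ) := v1 2
        have h2 : τ' = τ := P.res_unique hg h1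
        exact v3 (9 * q) Q (h2 ▸ hjet i' j' τ' hτ')
      · rw [if_neg hPf]
        obtain ⟨τ, -, -, v2, -, -⟩ := hVal a b ha hb C i j P hN
        exact v2 Q (by rw [hln i j, Polynomial.eval_zero])
    have hz := hZer (C.ev Q) hne n1.toFinset (fun P => if P ∈ C.fixed Θ then 9 * q else 1) hge
    have hsum : ∑ P ∈ n1.toFinset, (if P ∈ C.fixed Θ then 9 * q else 1) =
        C.n + (9 * q - 1) * (C.fixed Θ).ncard := by
      have h1 : ∀ P ∈ n1.toFinset, (if P ∈ C.fixed Θ then 9 * q else 1) =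
          1 + (if P ∈ C.fixed Θ then 9 * q - 1 else 0) := by
        intro P _
        split_ifs
        · omega
        · rfl
      rw [Finset.sum_congr rfl h1, Finset.sum_add_distrib, Finset.sum_const, smul_eq_mul, mul_one,
        ← Finset.sum_filter, Finset.sum_const, smul_eq_mul, mul_comm _ (9 * q - 1)]
      congr 2
      · exact (Set.ncard_eq_toFinset_card _ n1).symm
      · have hfin : (C.fixed Θ).Finite := n1.subset hfix
        rw [Set.ncard_eq_toFinset_card _ hfin]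
        congr 1
        ext P
        rw [Finset.mem_filter, Set.Finite.mem_toFinset, Set.Finite.mem_toFinset]
        exact ⟨fun h => h.2, fun h => ⟨hfix h, h⟩⟩
    rw [hsum] at hz
    have hc := (hCta C.pt d₁ d₂ M Q hQ).2
    have hc' : ht k (C.ev Q) ≤ d₁ * ht k C.x + d₂ * ht k C.z + M * (4 * C.h + 19 * C.h) := by
      refine hc.trans ?_
      exact Nat.add_le_add_left (Nat.mul_le_mul_left _ (Nat.add_le_add n6 n7)) _
    exact arith hq hN₁ hN₂ hd hM n2 n3 n4 (n5 _ (by omega) hN₁ hN₂) hι hc' hz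

end Pool.Agent.PPZ.H43
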